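import Pool.Agent.H32.HomB

namespace Pool.Agent.Results.MP_3ff21c_al.Decidable

open Pool.Agent.H32.Hom Pool.Agent.H37 FreeGroup

def allL {α : Type} (X : List α) (k : ℕ) : List (List α) :=
  (fun S => [] :: X.flatMap fun a => S.map fun l => a :: l)^[k] [[]]

theorem mem_allL {α : Type} (X : List α) (k : ℕ) :
    ∀ l, l ∈ allL X k ↔ l.length ≤ k ∧ ∀ a ∈ l, a ∈ X := by
  induction k with
  | zero => rintro (_ | _) <;> simp [allL]
  | succ k ih =>
    intro l
    unfold allL at ih ⊢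
    rw [Function.iterate_succ_apply']
    rcases l with _ | ⟨a, l⟩
    · simp
    · simp [ih, and_left_comm]

theorem ev_fl {ι G S : Type} [Group G] (a : ι → G) (c : S → List (ι × Bool)) (u : List S) :
    ev a (u.flatMap c) = (u.map fun s => ev a (c s)).prod := by
  induction u with
  | nil => rfl
  | cons s u ih => simp [ev_app, ih]

theorem ev_uv {G S : Type} [Group G] (c : S → G) (u v : List S) :
    ev c (v.reverse.map (·, false) ++ u.map (·, true)) = (v.map c).prod⁻¹ * (u.map c).prod := by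
  simp [ev, List.prod_inv_reverse, Function.comp_def]

theorem sorted_uv {S : Type} (w : List (S × Bool)) (h : w.Pairwise fun s t => s.2 ≤ t.2) :
    ∃ u v : List S, w = v.reverse.map (·, false) ++ u.map (·, true) := by
  induction w with
  | nil => exact ⟨[], [], rfl⟩
  | cons s w ih =>
    obtain ⟨h1, h2⟩ := List.pairwise_cons.1 h
    obtain ⟨u, v, rfl⟩ := ih h2
    obtain ⟨s, _ | _⟩ := s
    · exact ⟨u, v ++ [s], by simp⟩
    · rcases v with _ | ⟨x, v⟩
      · exact ⟨s :: u, [], by simp⟩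
      · exact absurd (h1 (x, false) (by simp)) (by simp)

theorem hom_iff {H G S : Type} [Group H] [Group G] (L : List S) (p : S → H) (q : S → G) :
    (∃ Φ : Submonoid.closure {h | ∃ s ∈ L, h = p s} →* G,
      ∀ s ∈ L, ∀ h, h.1 = p s → Φ h = q s) ↔ ∀ u v : List S, (∀ s ∈ u, s ∈ L) → (∀ s ∈ v, s ∈ L) →
      (v.map p).prod = (u.map p).prod → (v.map q).prod = (u.map q).prod := by
  constructor
  · rintro ⟨Φ, h⟩ u v hu hv e
    have : ∀ u : List S, (∀ s ∈ u, s ∈ L) → ∃ m, m.1 = (u.map p).prod ∧ Φ m = (u.map q).prod := by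
      intro u hu
      induction u with
      | nil => exact ⟨1, rfl, Φ.map_one⟩
      | cons s u ih =>
        obtain ⟨m, a, b⟩ := ih fun s hs => hu s (by simp [hs])
        have hs := hu s (by simp)
        exact ⟨⟨p s, Submonoid.subset_closure ⟨s, hs, rfl⟩⟩ * m, by simp [a],
          by rw [Φ.map_mul, h s hs _ rfl, b]; simp⟩
    obtain ⟨m, a, b⟩ := this u hu
    obtain ⟨m', a', b'⟩ := this v hv
    rw [← b, ← b', Subtype.ext (a.trans (e.symm.trans a'.symm))]
  · intro h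
    have : ∀ m : Submonoid.closure {h | ∃ s ∈ L, h = p s},
        ∃ u : List S, (∀ s ∈ u, s ∈ L) ∧ (u.map p).prod = m := by
      rintro ⟨m, hm⟩
      induction hm using Submonoid.closure_induction with
      | mem x hx => obtain ⟨s, a, rfl⟩ := hx; exact ⟨[s], by simpa using a, by simp⟩
      | one => exact ⟨[], by simp, rfl⟩
      | mul x y _ _ a b =>
        obtain ⟨u, a1, a2⟩ := a
        obtain ⟨v, b1, b2⟩ := b
        exact ⟨u ++ v, fun s hs => (List.mem_append.1 hs).elim (a1 s) (b1 s), by simp [a2, b2]⟩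
    choose u h1 h2 using this
    refine ⟨MonoidHom.mk' (fun m => ((u m).map q).prod) fun m m' => ?_, fun s hs m e => ?_⟩
    · have := h (u m ++ u m') _ (fun s hs => (List.mem_append.1 hs).elim (h1 _ s) (h1 _ s))
        (h1 (m * m')) (by simp [h2])
      simpa using this
    · have := h [s] _ (by simpa using hs) (h1 m) (by simp [h2, e])
      simpa using this

theorem bound {H G S : Type} [Group H] [Group G] {k m : ℕ} (C : Coc H k m) (L : List S)
    (p : S → H) (q : S → G) (K n : ℕ) (hn : n = k * k * (2 * m + 1) ^ (2 * K) * 4)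
    (hK : ∀ s ∈ L, ∀ ω, (C.β (p s) ω).norm ≤ K ∧ (C.β (p s)⁻¹ ω).norm ≤ K)
    (h : ∀ u ∈ allL L ((n + 2) * 2 ^ n), ∀ v ∈ allL L ((n + 2) * 2 ^ n),
      (v.map p).prod = (u.map p).prod → (v.map q).prod = (u.map q).prod)
    (u v : List S) (hu : ∀ s ∈ u, s ∈ L) (hv : ∀ s ∈ v, s ∈ L)
    (e : (v.map p).prod = (u.map p).prod) : (v.map q).prod = (u.map q).prod := by
  obtain ⟨c1, c2⟩ := C.card (2 * K)
  have := gen (U := C.ball (2 * K) ×ˢ (Set.univ : Set (Bool × Bool))) (c1.prod Set.finite_univ)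
    (n := n) (by rw [Set.ncard_prod, hn]; exact Nat.mul_le_mul c2 (by simp))
    (fun t => {w : List (S × Bool) | (∀ s ∈ w, s.1 ∈ L ∧ t.2.1 ≤ s.2 ∧ s.2 ≤ t.2.2) ∧
      t.2.1 ≤ t.2.2 ∧ w.Pairwise (fun s t => s.2 ≤ t.2) ∧ ev p w = t.1}) (t0 := (1, false, true))
    ⟨⟨C.ω0, by simp [C.β1]⟩, trivial⟩ ?_ (ev q) (ev_app q) ?_
    (v.reverse.map (·, false) ++ u.map (·, true)) ⟨?_, by simp, ?_, by rw [ev_uv, e]; simp⟩
  · rw [ev_uv] at this
    exact inv_mul_eq_one.1 this
  · rintro ⟨g, a, b⟩ ⟨ht, -⟩ w ⟨a1, a2, a3, rfl⟩ h2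
    obtain ⟨l1, l2, b1, b2, b3, b4, b5⟩ := C.tri K
      (w.map fun s : S × Bool => cond s.2 (p s.1) (p s.1)⁻¹)
      (by simpa using h2) (fun y hy ω => by
        obtain ⟨⟨s, _ | _⟩, hs, rfl⟩ := List.mem_map.1 hy
        exacts [(hK s (a1 _ hs).1 ω).2, (hK s (a1 _ hs).1 ω).1]) ht
    obtain ⟨w1, w2, rfl, rfl, rfl⟩ := List.map_eq_append_iff.1 b3
    obtain ⟨x, w2, rfl⟩ := List.exists_cons_of_ne_nil (l := w2) (by simpa using b2)
    obtain ⟨d1, d2, d3⟩ := List.pairwise_append.1 a3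
    have hx := a1 x (by simp)
    refine ⟨(_, a, x.2), ⟨b4, trivial⟩, (_, x.2, b), ⟨b5, trivial⟩, w1,
      ⟨fun s hs => ⟨(a1 s (by simp [hs])).1, (a1 s (by simp [hs])).2.1, d3 s hs x (by simp)⟩,
        hx.2.1, d1, rfl⟩, x :: w2,
      ⟨fun s hs => ⟨(a1 s (List.mem_append_right _ hs)).1, ?_,
        (a1 s (List.mem_append_right _ hs)).2.2⟩, hx.2.2, d2, rfl⟩,
      by simpa using b1, by simp, rfl, ?_⟩
    · rcases List.mem_cons.1 hs with rfl | hs
      exacts [le_rfl, (List.pairwise_cons.1 d2).1 s hs]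
    · rintro v1 ⟨f1, -, f2, f3⟩ v2 ⟨g1, -, g2, g3⟩
      refine ⟨fun s hs => ?_, a2, List.pairwise_append.2 ⟨f2, g2, fun s hs t ht =>
        (f1 s hs).2.2.trans (g1 t ht).2.1⟩, by rw [ev_app, ev_app, f3, g3]; rfl⟩
      rcases List.mem_append.1 hs with hs | hs
      · exact ⟨(f1 s hs).1, (f1 s hs).2.1, (f1 s hs).2.2.trans hx.2.2⟩
      · exact ⟨(g1 s hs).1, hx.2.1.trans (g1 s hs).2.1, (g1 s hs).2.2⟩
  · rintro w ⟨a1, -, a3, a4⟩ hl
    obtain ⟨u, v, rfl⟩ := sorted_uv w a3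
    rw [ev_uv] at a4 ⊢
    simp only [List.length_append, List.length_map, List.length_reverse] at hl
    exact inv_mul_eq_one.2 (h u ((mem_allL _ _ _).2 ⟨by omega,
      fun s hs => (a1 (s, true) (by simp [hs])).1⟩) v ((mem_allL _ _ _).2 ⟨by omega,
      fun s hs => (a1 (s, false) (by simp [hs])).1⟩) (inv_mul_eq_one.1 a4))
  · intro s hs
    simp only [List.mem_append, List.mem_map, List.mem_reverse] at hs
    rcases hs with ⟨x, hx, rfl⟩ | ⟨x, hx, rfl⟩
    exacts [⟨hv x hx, by simp⟩, ⟨hu x hx, by simp⟩]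
  · refine List.pairwise_append.2 ⟨?_, ?_, by simp⟩ <;> rw [List.pairwise_map] <;>
      exact List.pairwise_of_forall fun _ _ => le_rfl

theorem result (H : Type) [Group H] (r : ℕ) (a : Fin r → H)
    (ha : Subgroup.closure (Set.range a) = ⊤) (F : Subgroup H) [F.FiniteIndex] [IsFreeGroup F]
    (G : Type) [Group G] (β : Type) [Primcodable β] (b : β → G)
    (hb : ComputablePred fun w : List (β × Bool) => ev b w = 1) :
    ∃ f : List (List (Fin r × Bool) × List (β × Bool)) → Bool, Computable f ∧ ∀ L, f L = true ↔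
      ∃ Φ : Submonoid.closure {h | ∃ s ∈ L, h = ev a s.1} →* G,
        ∀ s ∈ L, ∀ h, h.1 = ev a s.1 → Φ h = ev b s.2 := by
  have : Group.FG H := Group.fg_iff.2 ⟨_, ha, Set.finite_range a⟩
  obtain ⟨k, m, ⟨C⟩⟩ := exists_coc H F
  obtain ⟨c, hc⟩ := C.lip a
  obtain ⟨f1, h1, e1⟩ := C.wp a
  obtain ⟨f2, h2, e2⟩ := ComputablePred.computable_iff.1 hb
  have h2 : CI ∅ f2 := CI.of_comp h2
  let N : List (List (Fin r × Bool) × List (β × Bool)) → ℕ := fun L =>
    k * k * (2 * m + 1) ^ (2 * (c * (L.flatMap Prod.fst).length)) * 4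
  have hf : CI ∅ fun L : List (List (Fin r × Bool) × List (β × Bool)) =>
      (allL L ((N L + 2) * 2 ^ N L)).all fun u => (allL L ((N L + 2) * 2 ^ N L)).all fun v =>
        !f1 (invRev (v.flatMap Prod.fst) ++ u.flatMap Prod.fst) ||
          f2 (invRev (v.flatMap Prod.snd) ++ u.flatMap Prod.snd) := by
    unfold allL invRev N
    fun_prop
  refine ⟨_, hf.computable, fun L => ?_⟩
  rw [hom_iff L (fun s => ev a s.1) fun s => ev b s.2]
  have e2 : ∀ w, f2 w = true ↔ ev b w = 1 := fun w => (iff_of_eq (congrFun e2 w)).symm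
  simp only [List.all_eq_true, Bool.or_eq_true, Bool.not_eq_true', ← Bool.not_eq_true,
    ← imp_iff_not_or, e1, e2, ev_app, ev_inv, ev_fl, inv_mul_eq_one]
  refine ⟨bound C L _ _ _ _ rfl fun s hs ω => ?_,
    fun h u hu v hv => h u v ((mem_allL _ _ _).1 hu).2 ((mem_allL _ _ _).1 hv).2⟩
  have : s.1.length ≤ (L.flatMap Prod.fst).length :=
    (List.sublist_flatten_of_mem (List.mem_map.2 ⟨s, hs, rfl⟩)).length_le
  have := Nat.mul_le_mul_left c this
  exact ⟨(hc _ _).trans this, by rw [← ev_inv]; exact (hc _ _).trans (by simpa using this)⟩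

end Pool.Agent.Results.MP_3ff21c_al.Decidable
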